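import Pool.Agent.TH613.MC.Defs
import Pool.Agent.TH133.DefsAJ

/-!
# The kernel of the Abel-Jacobi map in the middle codimension: definitions
-/

open CategoryTheory AlgebraicGeometry

universe u v w

namespace Pool.Agent.TH613.MC

open Pool.Agent.H914 Pool.Agent.H914.VarClass Pool.Agent.H914.VarClass.Obj Pool.Agent.W492.BB
  Pool.Agent.W550.Corr Pool.Agent.TH133

variable {k : Type u} [Field k] {𝒱 : VarClass k} {C : TheoryData.{u, v, 0} 𝒱 ℚ} {K : Type w}
  [Field K] {H : WeilTheoryData.{u, v, w} C K}

/-- The cohomology of the (homological) motive `(X, p)` is concentrated in one degree, which is at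
least `dim X - 1`: the correspondence `p` acts as zero on `H^j(X)` for all `j` except for one degree
`n ≥ dim X - 1`. -/
def OneDegreeFromBelow (H : WeilTheoryData.{u, v, w} C K) {X : 𝒱.Obj} (p : C.A (X.prod X)) :
    Prop :=
  ∃ n : ℤ, (X.dim : ℤ) - 1 ≤ n ∧ ∀ j : ℤ, j ≠ n → Kills H p j

/-- The condition on the kernel of the Abel-Jacobi map in the middle codimension, for a variety `X`
of even dimension `2 m`: if `z ∈ CH^m(X)` is homologically trivial and in the kernel of the
Abel-Jacobi map, then homologically trivial self-correspondences of degree zero of `X` act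
nilpotently on `z`, and `p_* z = 0` for each idempotent self-correspondence `p` of degree zero of
`X` such that the cohomology of the motive `(X, p)` is concentrated in one degree `n ≥ 2 m - 1`. (If
the dimension of `X` is odd there is no condition.) -/
def MiddleKerCondition (T : AbelJacobi H) (X : 𝒱.Obj) : Prop :=
  ∀ m : ℕ, X.dim = 2 * m → ∀ z : C.A X, T.Ker m z →
    (∀ γ : C.A (X.prod X), C.Deg X.dim γ → H.cl γ = 0 → ∃ n : ℕ, (C.act γ)^[n] z = 0) ∧
    (∀ p : C.A (X.prod X), C.Deg X.dim p → C.comp p p = p → OneDegreeFromBelow H p →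
      C.act p z = 0)

end Pool.Agent.TH613.MC
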