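import Pool.Agent.TH133.DefsBB

/-!
# The middle codimension: definitions
-/

open CategoryTheory AlgebraicGeometry

universe u v w

namespace Pool.Agent.TH613.MC

open Pool.Agent.H914 Pool.Agent.H914.VarClass Pool.Agent.H914.VarClass.Obj Pool.Agent.W492.BB
  Pool.Agent.W550.Corr Pool.Agent.TH133

variable {k : Type u} [Field k] {𝒱 : VarClass k} {C : TheoryData.{u, v, 0} 𝒱 ℚ} {K : Type w}
  [Field K]

/-- The part of the Lefschetz standard conjecture which is used (for all varieties of the class):
each `X` has a divisor class `h` such that for all `j < d = dim X` some correspondence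
`u ∈ CH^j(X × X)` induces an inverse of the Lefschetz operator
`L^(d-j) : H^j(X) ⟶ H^(2d-j)(X)`, `a ↦ cl(h)^(d-j) a`. -/
def LefschetzInverse (H : WeilTheoryData.{u, v, w} C K) : Prop :=
  ∀ X : 𝒱.Obj, ∃ h : C.A X, C.Deg 1 h ∧ ∀ j : ℕ, j < X.dim → ∃ u : C.A (X.prod X),
    C.Deg j u ∧ ∀ a : H.A X, H.Deg j a →
      H.act (H.cl u) (H.mul (H.cl (h ^ (X.dim - j))) a) = a

/-- The cohomology of the (homological) motive `(X, p)` is concentrated in one degree, which is at
least `dim X`: the correspondence `p` acts as zero on `H^j(X)` for all `j` except for one degree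
`n ≥ dim X`. -/
def OneUpperDegree (H : WeilTheoryData.{u, v, w} C K) {X : 𝒱.Obj} (p : C.A (X.prod X)) : Prop :=
  ∃ n : ℤ, (X.dim : ℤ) ≤ n ∧ ∀ j : ℤ, j ≠ n → Kills H p j

/-- The condition in the middle codimension, for a variety `X` of even dimension `2 m`: if `z` is a
homologically trivial class in `CH^m(X)`, then homologically trivial self-correspondences of degree
zero of `X` act nilpotently on `z`, and `p_* z = 0` for each idempotent self-correspondence `p` of
degree zero of `X` such that the cohomology of the motive `(X, p)` is concentrated in one degree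
`n ≥ dim X`. (If the dimension of `X` is odd there is no condition.) -/
def MiddleCondition (H : WeilTheoryData.{u, v, w} C K) (X : 𝒱.Obj) : Prop :=
  ∀ m : ℕ, X.dim = 2 * m → ∀ z : C.A X, C.Deg m z → H.cl z = 0 →
    (∀ γ : C.A (X.prod X), C.Deg X.dim γ → H.cl γ = 0 → ∃ n : ℕ, (C.act γ)^[n] z = 0) ∧
    (∀ p : C.A (X.prod X), C.Deg X.dim p → C.comp p p = p → OneUpperDegree H p →
      C.act p z = 0)

/-- The Chow motive of `X` is a direct summand of a twist of the Chow motive of `Y` such that the
middle codimensions correspond to each other: `X` and `Y` have even dimensions `2 m` and `2 m'`, and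
there are correspondences `u ∈ CH^(m+m')(X × Y)` and `v ∈ CH^(m+m')(Y × X)` with
`v ∘ u = [Δ_X]`. -/
def IsMiddleSummand (C : TheoryData.{u, v, 0} 𝒱 ℚ) (X Y : 𝒱.Obj) : Prop :=
  ∃ m m' : ℕ, X.dim = 2 * m ∧ Y.dim = 2 * m' ∧ ∃ (u : C.A (X.prod Y)) (v : C.A (Y.prod X)),
    C.Deg (m + m') u ∧ C.Deg (m + m') v ∧ C.comp u v = dg C X

end Pool.Agent.TH613.MC
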