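import Pool.Agent.TH133.BBNil
import Pool.Agent.TH613.MC.Defs

/-!
# Bloch-Beilinson filtrations and the middle codimension
-/

open CategoryTheory AlgebraicGeometry

universe u v w

namespace Pool.Agent.TH613.MC

open Pool.Agent.H914 Pool.Agent.H914.VarClass Pool.Agent.H914.VarClass.Obj Pool.Agent.W492.BB
  Pool.Agent.W550.Corr Pool.Agent.TH133

set_option linter.unusedSectionVars false

variable {k : Type u} [Field k] {𝒱 : VarClass k} {C : TheoryData.{u, v, 0} 𝒱 ℚ}
  [hC : IsChowProj C] {K : Type w} [Field K]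
  {H : WeilTheoryData.{u, v, w} C K} [hH : IsWeilProj H] {X Y Z W : 𝒱.Obj}

include hC hH

/-! ### Summands -/

lemma act_iterate_conj {u : C.A (X.prod Y)} {v : C.A (Y.prod X)} (huv : C.comp u v = dg C X)
    (γ : C.A (X.prod X)) (z : C.A X) (n : ℕ) :
    (C.act (C.comp v (C.comp γ u)))^[n] (C.act u z) = C.act u ((C.act γ)^[n] z) := by
  induction n with
  | zero => rfl
  | succ n ih =>
    rw [Function.iterate_succ_apply', ih, Function.iterate_succ_apply', C.act_comp, C.act_comp,
      ← C.act_comp u v, huv, act_dg]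

lemma act_left_cancel {u : C.A (X.prod Y)} {v : C.A (Y.prod X)} (huv : C.comp u v = dg C X)
    {z : C.A X} (h : C.act u z = 0) : z = 0 := by
  have h1 : C.act v (C.act u z) = z := by rw [← C.act_comp, huv, act_dg]
  rw [← h1, h, TheoryData.act_map_zero]

theorem middleCondition_of_summand (h : IsMiddleSummand C X Y) (hY : MiddleCondition H Y) :
    MiddleCondition H X := by
  obtain ⟨m, m', hm, hm', u, v, hu, hv, huv⟩ := h
  intro m₁ hm₁ z hz hz0
  obtain rfl : m₁ = m := by omega
  have hu' : u ∈ C.gr (X.prod Y) (X.dim + ((m' : ℤ) - m₁)) := by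
    have e1 : (X.dim : ℤ) + ((m' : ℤ) - m₁) = m₁ + m' := by rw [hm]; push_cast; ring
    rw [e1]
    exact hu
  have hv' : v ∈ C.gr (Y.prod X) (Y.dim + ((m₁ : ℤ) - m')) := by
    have e1 : (Y.dim : ℤ) + ((m₁ : ℤ) - m') = m₁ + m' := by rw [hm']; push_cast; ring
    rw [e1]
    exact hv
  have hz1 : C.act u z ∈ C.gr Y m' := by
    have h1 := act_mem' C hu' hz
    have e1 : (m₁ : ℤ) + ((m' : ℤ) - m₁) = m' := by ring
    rwa [e1] at h1
  have hz2 : H.cl (C.act u z) = 0 := by rw [cl_act H, hz0, TheoryData.act_map_zero]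
  have hdeg : ∀ γ : C.A (X.prod X), γ ∈ C.gr (X.prod X) X.dim →
      C.comp v (C.comp γ u) ∈ C.gr (Y.prod Y) Y.dim := by
    intro γ hγ
    have h1 : C.comp γ u ∈ C.gr (X.prod Y) (X.dim + (0 + ((m' : ℤ) - m₁))) :=
      comp_mem C (by rwa [add_zero]) hu'
    have h2 := comp_mem C hv' h1
    have e1 : (Y.dim : ℤ) + (((m₁ : ℤ) - m') + (0 + ((m' : ℤ) - m₁))) = Y.dim := by ring
    rwa [e1] at h2
  have hact : ∀ (γ : C.A (X.prod X)) (a : H.A Y), H.act (H.cl (C.comp v (C.comp γ u))) a =
      H.act (H.cl u) (H.act (H.cl γ) (H.act (H.cl v) a)) := by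
    intro γ a
    rw [actH_comp, actH_comp]
  obtain ⟨hY1, hY2⟩ := hY m' hm' (C.act u z) hz1 hz2
  constructor
  · intro γ hγ hγ0
    obtain ⟨n, hn⟩ := hY1 (C.comp v (C.comp γ u)) (hdeg γ hγ) (by
      apply hom_zero_of_act H
      intro a
      rw [hact, hγ0, TheoryData.act_zero, TheoryData.act_map_zero])
    rw [act_iterate_conj (H := H) huv] at hn
    exact ⟨n, act_left_cancel (H := H) huv hn⟩
  · intro p hp hpp hone
    obtain ⟨n, hn, hkill⟩ := hone
    have h1 := hY2 (C.comp v (C.comp p u)) (hdeg p hp) (by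
      have e1 : C.comp (C.comp v (C.comp p u)) (C.comp v (C.comp p u)) =
          C.comp v (C.comp (C.comp p (C.comp (C.comp u v) p)) u) := by
        simp only [comp_assoc]
      rw [e1, huv, dg_comp, hpp]) ⟨n + 2 * ((m' : ℤ) - m₁), by rw [hm'] ; rw [hm] at hn; push_cast at hn ⊢; linarith,
        fun j hj a ha => by
          rw [hact]
          have h2 := actH_mem H hv' ha
          rw [hkill (j + 2 * ((m₁ : ℤ) - m')) (fun h3 => hj (by rw [← h3]; ring)) _ h2,
            TheoryData.act_map_zero]⟩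
    have h2 := act_iterate_conj (H := H) huv p z 1
    change C.act (C.comp v (C.comp p u)) (C.act u z) = C.act u (C.act p z) at h2
    rw [h2] at h1
    exact act_left_cancel (H := H) huv h1

/-! ### The condition for `X × X` -/

lemma dim_sq (X : 𝒱.Obj) : (X.prod X).dim = 2 * X.dim := by rw [dim_prod]; ring

lemma isNilpotent_of_middle (hX : MiddleCondition H (X.prod X)) {γ : Cor C X}
    (hγ : γ ∈ cor0 C X) (h0 : actH C X H γ = 0) : IsNilpotent γ := by
  have hcl : H.cl (X := X.prod X) γ = 0 := (homTrivial_iff H γ).2 h0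
  have hG : H.cl (tens C (dg C X) γ) = 0 := cl_tens_zero (Y := X) (W := X) hcl
  obtain ⟨m, hm⟩ := (hX X.dim (dim_sq (H := H) X) γ hγ hcl).1 (tens C (dg C X) γ) (by
      have := tens_mem C (dg_mem C X) hγ
      have e1 : ((X.prod X).dim : ℤ) = X.dim + X.dim := by rw [dim_prod]; push_cast; ring
      change _ ∈ C.gr _ _
      rw [e1]
      exact this) hG
  refine ⟨m + 1, ?_⟩
  rw [← iterate_mul γ (fun z => C.act (tens C (dg C X) γ) z) (fun z => act_tens_dg (H := H) γ z)]
  exact hm

theorem exists_CK_of_middle (hK : KunnethConjecture H) (hX : MiddleCondition H (X.prod X)) :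
    ∃ π : ℕ → C.A (X.prod X), IsCK H X π := by
  apply exists_CK_of_nil X
  · intro m
    obtain ⟨p, hp, hp'⟩ := hK X m
    exact ⟨p, hp, hp'⟩
  · exact fun γ hγ h0 => isNilpotent_of_middle hX hγ h0

omit hH in
/-- Classes of complementary degrees with intersection number one. -/
lemma exists_pair_hasDegree (H : WeilTheoryData.{u, v, w} C K) [hH : IsWeilProj H] (X : 𝒱.Obj)
    {l : ℕ} (hl : l ≤ X.dim) : ∃ u ∈ C.gr X l, ∃ v ∈ C.gr X ((X.dim : ℤ) - l),
      HasDegree C (v * u) 1 := by
  obtain ⟨u, hu, v, hv, huv⟩ := exists_dual_pair (C := C) (H := H) X (l := l) hl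
  have hvu : v * u ∈ C.gr X X.dim := by
    have := C.mul_mem hv hu
    rwa [sub_add_cancel] at this
  obtain ⟨q, hq⟩ := exists_hasDegree hvu
  refine ⟨u, hu, v, hv, ?_⟩
  have h1 := (hq X).1
  rw [huv] at h1
  have h2 : q = 1 := by
    by_contra hne
    have h5 : (q - 1) • (1 : C.A X) = 0 := by rw [sub_smul, ← h1, one_smul, sub_self]
    have h3 : (1 : C.A X) = 0 := by
      rw [← one_smul ℚ (1 : C.A X), ← inv_mul_cancel₀ (sub_ne_zero.2 hne), mul_smul, h5,
        smul_zero]
    have h4 : (1 : H.A X) = 0 := by rw [← map_one H.cl, h3, map_zero]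
    exact hH.one_ne_zero X h4
  rwa [h2] at hq

/-- The external product of a projector onto `H^j(X)` with a decomposable projector onto a part of
`H^(2l)(X)` is concentrated in the degree `j + 2 l`. -/
lemma kills_tens {π : ℕ → C.A (X.prod X)} (hπ : IsCK H X π) (j l : ℕ) {u v : C.A X}
    (hu : u ∈ C.gr X l) (hv : v ∈ C.gr X ((X.dim : ℤ) - l)) {n : ℤ} (hn : n ≠ j + 2 * l) :
    Kills H (tens C (π j) (C.ext v u)) n := by
  intro c hc
  have hρ : C.ext v u ∈ C.gr (X.prod X) (X.dim + 0) := by
    have := ext_mem' hv hu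
    rw [sub_add_cancel] at this
    rwa [add_zero]
  have hρ' : ∀ (i : ℤ) (b : H.A X), b ∈ H.gr X i → i ≠ 2 * l →
      H.act (H.cl (C.ext v u)) b = 0 := by
    intro i b hb hi
    have e1 : H.act (H.cl (C.ext v u)) b =
        H.push (snd X X) (H.pull (fst X X) (H.cl v * b)) * H.cl u := by
      have e2 : H.cl (C.ext v u) = H.pull (fst X X) (H.cl v) * H.pull (snd X X) (H.cl u) := by
        rw [TheoryData.ext, map_mul, H.cl_pull, H.cl_pull]
      have e3 : H.pull (snd X X) (H.cl u) * H.pull (fst X X) b =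
          H.pull (fst X X) b * H.pull (snd X X) (H.cl u) := by
        rw [← H.cl_pull]
        exact H.cl_central _ _
      rw [TheoryData.act_apply, e2, mul_assoc, e3, ← mul_assoc, ← map_mul, H.proj_right]
    rw [e1]
    have h1 : H.cl v * b ∈ H.gr X (2 * ((X.dim : ℤ) - l) + i) := H.mul_mem (H.cl_mem hv) hb
    have h2 := H.push_mem (snd X X) (H.pull_mem (fst X X) h1)
    have e4 : 2 * ((X.dim : ℤ) - l) + i + 2 * ((X.dim : ℤ) - ((X.prod X).dim : ℤ)) =
        i - 2 * l := by
      rw [dim_prod]; push_cast; ring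
    rw [e4] at h2
    rcases lt_or_gt_of_ne hi with h | h
    · rw [H.gr_neg X _ (by omega)] at h2
      rw [(Submodule.mem_bot _).1 h2, zero_mul]
    · rw [gr_top H (show 2 * (X.dim : ℤ) < 2 * ((X.dim : ℤ) - l) + i by omega)] at h1
      rw [(Submodule.mem_bot _).1 h1, map_zero, map_zero, zero_mul]
  have h1 := H.kunneth X X n hc
  clear hc
  induction h1 using Submodule.span_induction with
  | mem x hx =>
    obtain ⟨i, a, b, ha, hb, rfl⟩ := hx
    have e0 : H.pull (fst X X) a * H.pull (snd X X) b = H.ext a b := rfl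
    rw [e0, actH_tens_ext]
    by_cases hi : i = j
    · rw [hρ' (n - i) b hb (by omega), TheoryData.ext_zero_right]
    · rw [hπ.act_ne j i a hi ha, TheoryData.ext_zero_left]
  | zero => rw [TheoryData.act_map_zero]
  | add x y _ _ hx hy => rw [act_map_add, hx, hy, add_zero]
  | smul c x _ hx => rw [act_map_smul, hx, smul_zero]

/-- **Murre's conjecture (D) for `X` from the middle codimension on `X × X`.** -/
theorem act_zero_of_middle (hX : MiddleCondition H (X.prod X)) {π : ℕ → C.A (X.prod X)}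
    (hπ : IsCK H X π) {i j : ℕ} (hij : 2 * i ≤ j) {x : C.A X} (hx : x ∈ C.gr X i)
    (hx0 : H.cl x = 0) : C.act (π j) x = 0 := by
  by_cases hi : X.dim < i
  · have h1 : x = 0 := hC.gr_top X i x hx (by exact_mod_cast hi)
    rw [h1, TheoryData.act_map_zero]
  obtain ⟨l, hl⟩ : ∃ l : ℕ, X.dim = i + l := ⟨X.dim - i, by omega⟩
  obtain ⟨u, hu, v, hv, hvu⟩ := exists_pair_hasDegree (C := C) H X (l := l) (by omega)
  have huv : HasDegree C (u * v) 1 := by rwa [ch_comm C u v]
  have hact : C.act (C.ext v u) u = u := by rw [act_ext' hvu, one_smul]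
  have hidem : C.comp (C.ext v u) (C.ext v u) = C.ext v u := by
    rw [comp_ext_ext huv, one_smul]
  have hρ : C.ext v u ∈ C.gr (X.prod X) X.dim := by
    have := ext_mem' hv hu
    rwa [sub_add_cancel] at this
  have hz : C.ext x u ∈ C.gr (X.prod X) X.dim := by
    have := ext_mem' hx hu
    rw [hl]
    exact_mod_cast this
  have hz0 : H.cl (C.ext x u) = 0 := by
    rw [TheoryData.ext, map_mul, H.cl_pull, hx0, map_zero, zero_mul]
  have h1 := (hX X.dim (dim_sq (H := H) X) (C.ext x u) hz hz0).2 (tens C (π j) (C.ext v u))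
    (by
      have := tens_mem C (hπ.deg j) hρ
      have e1 : ((X.prod X).dim : ℤ) = X.dim + X.dim := by rw [dim_prod]; push_cast; ring
      change _ ∈ C.gr _ _
      rw [e1]
      exact this)
    (by rw [tens_comp', hπ.idem, hidem])
    ⟨j + 2 * l, by rw [dim_sq (H := H)]; push_cast; omega,
      fun n hn => kills_tens hπ j l hu hv hn⟩
  rw [act_tens_ext', hact] at h1
  -- apply the push-forward along the first projection after multiplication by `v`
  have h2 : C.push (fst X X) (C.ext (C.act (π j) x) u * C.pull (snd X X) v) =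
      C.act (π j) x := by
    rw [TheoryData.ext, mul_assoc, ← map_mul, C.proj_left, (huv X).2, one_smul, mul_one]
  rw [← h2, h1, zero_mul, map_zero]

theorem murreD_of_middle (hX : MiddleCondition H (X.prod X)) : MurreD H X := by
  intro π hπ i x
  rw [hπ.mem_ckFil]
  constructor
  · rintro ⟨hx, hx'⟩
    refine ⟨hx, ?_⟩
    rw [← cl_act_self hπ hx, hx' (2 * i) (by omega), map_zero]
  · rintro ⟨hx, hx'⟩
    exact ⟨hx, fun j hj => act_zero_of_middle hX hπ (by omega) hx hx'⟩

/-- **The second half of Murre's conjecture (B) from the middle codimension on `X × X` and the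
Lefschetz standard conjecture.** -/
theorem act_zero_of_lefschetz (hL : LefschetzInverse H) (hX : MiddleCondition H (X.prod X))
    {π : ℕ → C.A (X.prod X)} (hπ : IsCK H X π) {i j : ℕ} (hij : j < i) {x : C.A X}
    (hx : x ∈ C.gr X i) : C.act (π j) x = 0 := by
  by_cases hi : X.dim < i
  · have h1 : x = 0 := hC.gr_top X i x hx (by exact_mod_cast hi)
    rw [h1, TheoryData.act_map_zero]
  obtain ⟨h, hh, hinv⟩ := hL X
  obtain ⟨u, hu, hua⟩ := hinv j (by omega)
  have hpow : ∀ n : ℕ, h ^ n ∈ C.gr X n := by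
    intro n
    induction n with
    | zero =>
      rw [pow_zero]
      exact C.one_mem X
    | succ n ih =>
      rw [pow_succ]
      have := C.mul_mem ih hh
      exact_mod_cast this
  obtain ⟨e, he⟩ : ∃ e : ℕ, X.dim = j + e := ⟨X.dim - j, by omega⟩
  set g : C.A X := h ^ (X.dim - j) with hg
  have hge : g ∈ C.gr X e := by
    have e1 : X.dim - j = e := by omega
    rw [hg, e1]
    exact hpow e
  -- the correspondence `Λ`: multiplication by `g` followed by `u`
  set Λ : C.A (X.prod X) := C.comp (C.mulCorr g) u with hΛ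
  have hm : C.mulCorr g ∈ C.gr (X.prod X) (X.dim + (e : ℤ)) := by
    have h1 := C.push_mem (Obj.lift (𝟙 X) (𝟙 X)) hge
    have e1 : (e : ℤ) + 1 * (((X.prod X).dim : ℤ) - (X.dim : ℤ)) = X.dim + (e : ℤ) := by
      rw [dim_prod]; push_cast; ring
    rwa [e1] at h1
  have hu' : u ∈ C.gr (X.prod X) (X.dim + (-(e : ℤ))) := by
    have e1 : (X.dim : ℤ) + (-(e : ℤ)) = j := by rw [he]; push_cast; ring
    rw [e1]
    exact hu
  have hΛm : Λ ∈ C.gr (X.prod X) X.dim := by
    have h1 := comp_mem C hm hu'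
    have e1 : (X.dim : ℤ) + ((e : ℤ) + (-(e : ℤ))) = X.dim := by ring
    rwa [e1] at h1
  have hΛx : ∀ y ∈ C.gr X i, C.act Λ y = 0 := by
    intro y hy
    rw [hΛ, C.act_comp, C.act_mulCorr]
    have h1 : g * y ∈ C.gr X ((e + i : ℕ) : ℤ) := by
      have := C.mul_mem hge hy
      exact_mod_cast this
    have h2 : g * y = 0 := hC.gr_top X _ _ h1 (by exact_mod_cast (by omega))
    rw [h2, TheoryData.act_map_zero]
  have hclm : ∀ a : H.A X, H.act (H.cl (C.mulCorr g)) a = H.cl g * a := by
    intro a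
    have e1 : H.cl (C.mulCorr g) = H.mulCorr (H.cl g) := by
      rw [TheoryData.mulCorr, TheoryData.mulCorr, H.cl_push]
    rw [e1, H.act_mulCorr]
  let P : ℕ → Cor C X := π
  have hP : IsCK H X P := hπ
  let L : Cor C X := Λ
  have hL0 : L ∈ cor0 C X := hΛm
  let γ : Cor C X := P j - P j * L * P j
  have hγ : γ ∈ cor0 C X := (cor0 C X).sub_mem (hP.deg j)
    ((cor0 C X).mul_mem ((cor0 C X).mul_mem (hP.deg j) hL0) (hP.deg j))
  have hγ0 : actH C X H γ = 0 := by
    apply ext_gr H
    intro m a ha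
    have e1 : actH C X H γ a = actH C X H (P j) a -
        actH C X H (P j) (actH C X H L (actH C X H (P j) a)) := by
      change actH C X H (P j - P j * L * P j) a = _
      rw [map_sub, map_mul, map_mul]
      rfl
    rw [e1, hP.actH_eq' j m ha, LinearMap.zero_apply]
    split_ifs with hmj
    · subst hmj
      have e2 : actH C X H L a = a := by
        change H.act (H.cl Λ) a = a
        rw [hΛ, actH_comp, hclm]
        exact hua a ha
      rw [e2, hP.actH_eq' j j ha, if_pos rfl, sub_self]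
    · rw [map_zero, map_zero, sub_self]
  obtain ⟨n, hn⟩ := isNilpotent_of_middle hX hγ hγ0
  have hstep : ∀ y ∈ C.gr X i, C.act γ y = C.act (π j) y := by
    intro y hy
    have e1 : actC C X γ y = actC C X (P j) y -
        actC C X (P j) (actC C X L (actC C X (P j) y)) := by
      change actC C X (P j - P j * L * P j) y = _
      rw [map_sub, map_mul, map_mul]
      rfl
    have e2 : actC C X L (actC C X (P j) y) = 0 := hΛx _ (act_mem0 C (hπ.deg j) hy)
    rw [e2, map_zero, sub_zero] at e1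
    exact e1
  have hx1 : C.act (π j) x ∈ C.gr X i := act_mem0 C (hπ.deg j) hx
  have hiter : ∀ m : ℕ, actC C X (γ ^ m) (C.act (π j) x) = C.act (π j) x := by
    intro m
    induction m with
    | zero =>
      rw [pow_zero, map_one]
      rfl
    | succ m ih =>
      rw [pow_succ', map_mul, Module.End.mul_apply, ih]
      change C.act γ _ = _
      rw [hstep _ hx1, ← C.act_comp, hπ.idem]
  rw [← hiter n, hn, map_zero, LinearMap.zero_apply]

theorem murreB1_of_middle (hL : LefschetzInverse H) (hX : MiddleCondition H (X.prod X)) :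
    MurreB1 H X := by
  intro π hπ i
  rw [eq_bot_iff]
  intro x hx
  rw [hπ.mem_ckFil] at hx
  rw [Submodule.mem_bot]
  have h1 : x = ∑ j ∈ Finset.range (2 * X.dim + 1), C.act (π j) x := by
    rw [← act_sum, hπ.sum, act_dg]
  rw [h1]
  apply Finset.sum_eq_zero
  intro j _
  by_cases hj : i ≤ j
  · exact hx.2 j (by omega)
  · exact act_zero_of_lefschetz hL hX hπ (by omega) hx.1

/-! ### The main theorem -/

lemma middleCondition_of_nilpotentOnHom
    (h : ∀ m : ℕ, X.dim = 2 * m → NilpotentOnHom H X m) : MiddleCondition H X := by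
  intro m hm z hz hz0
  constructor
  · intro γ hγ hγ0
    exact h m hm γ hγ (fun j _ _ a _ => by rw [hγ0, TheoryData.act_zero]) z hz hz0
  · rintro p hp hpp ⟨n, hn, hkill⟩
    obtain ⟨r, hr⟩ := h m hm p hp (fun j _ hj => hkill j (by omega)) z hz hz0
    exact act_zero_of_iterate (H := H) hpp hr

theorem isBB_tfae_middle (hK : KunnethConjecture H) (hL : LefschetzInverse H) (S : Set 𝒱.Obj)
    (hS : ∀ X : 𝒱.Obj, Even X.dim → ∃ Y ∈ S, IsMiddleSummand C X Y) :
    List.TFAE [∃ F : Filtration C, IsBB H F,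
      ∀ (X : 𝒱.Obj) (m : ℕ), X.dim = 2 * m → NilpotentOnHom H X m,
      ∀ X : 𝒱.Obj, MiddleCondition H (X.prod X),
      ∀ Y ∈ S, MiddleCondition H Y] := by
  tfae_have 1 → 2 := by
    intro h X m _
    have h1 : ∀ (X : 𝒱.Obj) (i : ℕ), NilpotentOnHom H X i := ((isBB_tfae (H := H) hK).out 0 1).1 h
    exact h1 X m
  tfae_have 2 → 4 := fun h X _ => middleCondition_of_nilpotentOnHom (h X)
  tfae_have 4 → 3 := by
    intro h X
    obtain ⟨Y, hY, hXY⟩ := hS (X.prod X) ⟨X.dim, by rw [dim_sq (H := H)]; ring⟩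
    exact middleCondition_of_summand hXY (h Y hY)
  tfae_have 3 → 1 := by
    intro h1
    exact exists_isBB (fun X => exists_CK_of_middle hK (h1 X)) (fun X => murreD_of_middle (h1 X))
      (fun X => murreB1_of_middle hL (h1 X))
  tfae_finish

end Pool.Agent.TH613.MC
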