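import Pool.Agent.TH133.AJ
import Pool.Agent.TH613.MC.Main
import Pool.Agent.TH613.MC.DefsAJ

/-!
# Bloch-Beilinson filtrations and the kernel of the Abel-Jacobi map in the middle codimension
-/

open CategoryTheory AlgebraicGeometry

universe u v w

namespace Pool.Agent.TH613.MC

open Pool.Agent.H914 Pool.Agent.H914.VarClass Pool.Agent.H914.VarClass.Obj Pool.Agent.W492.BB
  Pool.Agent.W550.Corr Pool.Agent.TH133

set_option linter.unusedSectionVars false

variable {k : Type u} [Field k] {𝒱 : VarClass k} {C : TheoryData.{u, v, 0} 𝒱 ℚ}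
  [hC : IsChowProj C] {K : Type w} [Field K]
  {H : WeilTheoryData.{u, v, w} C K} [hH : IsWeilProj H] {X Y Z W : 𝒱.Obj}

include hC hH

/-- Summands. -/
theorem middleKerCondition_of_summand {T : AbelJacobi H} (hT : T.IsFunctorial)
    (h : IsMiddleSummand C X Y) (hY : MiddleKerCondition T Y) : MiddleKerCondition T X := by
  obtain ⟨m, m', hm, hm', u, v, hu, hv, huv⟩ := h
  intro m₁ hm₁ z hz
  obtain rfl : m₁ = m := by omega
  have hu' : u ∈ C.gr (X.prod Y) (X.dim + ((m' : ℤ) - m₁)) := by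
    have e1 : (X.dim : ℤ) + ((m' : ℤ) - m₁) = m₁ + m' := by rw [hm]; push_cast; ring
    rw [e1]
    exact hu
  have hv' : v ∈ C.gr (Y.prod X) (Y.dim + ((m₁ : ℤ) - m')) := by
    have e1 : (Y.dim : ℤ) + ((m₁ : ℤ) - m') = m₁ + m' := by rw [hm']; push_cast; ring
    rw [e1]
    exact hv
  have hz1 : T.Ker m' (C.act u z) :=
    ker_act hT (l := m₁ + m') (by exact_mod_cast hu) (by omega) hz
  have hdeg : ∀ γ : C.A (X.prod X), γ ∈ C.gr (X.prod X) X.dim →
      C.comp v (C.comp γ u) ∈ C.gr (Y.prod Y) Y.dim := by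
    intro γ hγ
    have h1 : C.comp γ u ∈ C.gr (X.prod Y) (X.dim + (0 + ((m' : ℤ) - m₁))) :=
      comp_mem C (by rwa [add_zero]) hu'
    have h2 := comp_mem C hv' h1
    have e1 : (Y.dim : ℤ) + (((m₁ : ℤ) - m') + (0 + ((m' : ℤ) - m₁))) = Y.dim := by ring
    rwa [e1] at h2
  have hact : ∀ (γ : C.A (X.prod X)) (a : H.A Y), H.act (H.cl (C.comp v (C.comp γ u))) a =
      H.act (H.cl u) (H.act (H.cl γ) (H.act (H.cl v) a)) := by
    intro γ a
    rw [actH_comp, actH_comp]
  obtain ⟨hY1, hY2⟩ := hY m' hm' (C.act u z) hz1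
  constructor
  · intro γ hγ hγ0
    obtain ⟨n, hn⟩ := hY1 (C.comp v (C.comp γ u)) (hdeg γ hγ) (by
      apply hom_zero_of_act H
      intro a
      rw [hact, hγ0, TheoryData.act_zero, TheoryData.act_map_zero])
    rw [act_iterate_conj (H := H) huv] at hn
    exact ⟨n, act_left_cancel (H := H) huv hn⟩
  · intro p hp hpp hone
    obtain ⟨n, hn, hkill⟩ := hone
    have h1 := hY2 (C.comp v (C.comp p u)) (hdeg p hp) (by
      have e1 : C.comp (C.comp v (C.comp p u)) (C.comp v (C.comp p u)) =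
          C.comp v (C.comp (C.comp p (C.comp (C.comp u v) p)) u) := by
        simp only [comp_assoc]
      rw [e1, huv, dg_comp, hpp]) ⟨n + 2 * ((m' : ℤ) - m₁), by
          rw [hm']; rw [hm] at hn; push_cast at hn ⊢; linarith,
        fun j hj a ha => by
          rw [hact]
          have h2 := actH_mem H hv' ha
          rw [hkill (j + 2 * ((m₁ : ℤ) - m')) (fun h3 => hj (by rw [← h3]; ring)) _ h2,
            TheoryData.act_map_zero]⟩
    have h2 := act_iterate_conj (H := H) huv p z 1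
    change C.act (C.comp v (C.comp p u)) (C.act u z) = C.act u (C.act p z) at h2
    rw [h2] at h1
    exact act_left_cancel (H := H) huv h1

/-- The condition on the kernels of the Abel-Jacobi maps implies the condition on homologically
trivial cycles. -/
theorem middleCondition_of_ker {T : AbelJacobi H} (hT : T.IsFunctorial)
    (h : MiddleKerCondition T X) : MiddleCondition H X := by
  intro m hm z hz hz0
  have hker : ∀ γ : C.A (X.prod X), C.Deg X.dim γ → Kills H γ (2 * m - 1) →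
      T.Ker m (C.act γ z) := fun γ hγ hk => ker_of_kills hT hγ rfl hk ⟨hz, hz0⟩
  constructor
  · intro γ hγ hγ0
    have hk : T.Ker m (C.act γ z) := hker γ hγ (fun a _ => by rw [hγ0, TheoryData.act_zero])
    obtain ⟨n, hn⟩ := (h m hm _ hk).1 γ hγ hγ0
    refine ⟨n + 1, ?_⟩
    rw [Function.iterate_succ_apply]
    exact hn
  · rintro p hp hpp ⟨n, hn, hkill⟩
    have hk : T.Ker m (C.act p z) := hker p hp (hkill _ (by omega))
    have h1 := (h m hm _ hk).2 p hp hpp ⟨n, by omega, hkill⟩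
    rwa [← C.act_comp, hpp] at h1

/-- External products with a class preserve the kernels of the Abel-Jacobi maps. -/
lemma ker_ext {T : AbelJacobi H} (hT : T.IsFunctorial) {i l : ℕ} {z : C.A X} (hz : T.Ker i z)
    {u : C.A Y} (hu : u ∈ C.gr Y l) : T.Ker (i + l) (C.ext z u) := by
  have hc : C.pull (snd X Y) u ∈ C.gr (X.prod Y) l := C.pull_mem _ hu
  have h1 : C.cograph (fst X Y) ∈ C.gr (X.prod (X.prod Y)) (X.dim + 0) := by
    have h := C.push_mem (Obj.lift (fst X Y) (𝟙 (X.prod Y))) (C.one_mem (X.prod Y))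
    have e1 : (0 : ℤ) + 1 * (((X.prod (X.prod Y)).dim : ℤ) - ((X.prod Y).dim : ℤ)) =
        (X.dim : ℤ) + 0 := by
      rw [dim_prod X (X.prod Y)]; push_cast; ring
    rwa [e1] at h
  have h2 : C.mulCorr (C.pull (snd X Y) u) ∈
      C.gr ((X.prod Y).prod (X.prod Y)) ((X.prod Y).dim + (l : ℤ)) := by
    have h := C.push_mem (Obj.lift (𝟙 (X.prod Y)) (𝟙 (X.prod Y))) hc
    have e1 : (l : ℤ) + 1 * ((((X.prod Y).prod (X.prod Y)).dim : ℤ) - ((X.prod Y).dim : ℤ)) =
        (X.prod Y).dim + (l : ℤ) := by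
      rw [dim_prod (X.prod Y) (X.prod Y)]; push_cast; ring
    rwa [e1] at h
  have h3 := comp_mem C h1 h2
  have h4 : C.comp (C.cograph (fst X Y)) (C.mulCorr (C.pull (snd X Y) u)) ∈
      C.gr (X.prod (X.prod Y)) ((X.dim + l : ℕ) : ℤ) := by
    have e1 : (X.dim : ℤ) + (0 + (l : ℤ)) = ((X.dim + l : ℕ) : ℤ) := by push_cast; ring
    rwa [e1] at h3
  have h5 := ker_act hT (i := i) (j := i + l) h4 (by omega) hz
  rw [C.act_comp, C.act_cograph, C.act_mulCorr, ch_comm C] at h5
  exact h5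

/-- A Kunneth projector of degree `2 i - 1` kills the kernel of the Abel-Jacobi map. -/
theorem act_zero_ker_of_middle {T : AbelJacobi H} (hT : T.IsFunctorial)
    (hX : MiddleKerCondition T (X.prod X)) {π : ℕ → C.A (X.prod X)}
    (hπ : IsCK H X π) {i j : ℕ} (hij : 2 * i ≤ j + 1) {x : C.A X} (hx : T.Ker i x) :
    C.act (π j) x = 0 := by
  by_cases hi : X.dim < i
  · have h1 : x = 0 := hC.gr_top X i x hx.1.1 (by exact_mod_cast hi)
    rw [h1, TheoryData.act_map_zero]
  obtain ⟨l, hl⟩ : ∃ l : ℕ, X.dim = i + l := ⟨X.dim - i, by omega⟩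
  obtain ⟨u, hu, v, hv, hvu⟩ := exists_pair_hasDegree (C := C) H X (l := l) (by omega)
  have huv : HasDegree C (u * v) 1 := by rwa [ch_comm C u v]
  have hact : C.act (C.ext v u) u = u := by rw [act_ext' hvu, one_smul]
  have hidem : C.comp (C.ext v u) (C.ext v u) = C.ext v u := by
    rw [comp_ext_ext huv, one_smul]
  have hρ : C.ext v u ∈ C.gr (X.prod X) X.dim := by
    have := ext_mem' hv hu
    rwa [sub_add_cancel] at this
  have hz : T.Ker X.dim (C.ext x u) := by
    have := ker_ext hT hx hu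
    rwa [← hl] at this
  have h1 := (hX X.dim (dim_sq (H := H) X) (C.ext x u) hz).2 (tens C (π j) (C.ext v u))
    (by
      have := tens_mem C (hπ.deg j) hρ
      have e1 : ((X.prod X).dim : ℤ) = X.dim + X.dim := by rw [dim_prod]; push_cast; ring
      change _ ∈ C.gr _ _
      rw [e1]
      exact this)
    (by rw [tens_comp', hπ.idem, hidem])
    ⟨j + 2 * l, by rw [dim_sq (H := H)]; push_cast; omega,
      fun n hn => kills_tens hπ j l hu hv hn⟩
  rw [act_tens_ext', hact] at h1
  have h2 : C.push (fst X X) (C.ext (C.act (π j) x) u * C.pull (snd X X) v) =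
      C.act (π j) x := by
    rw [TheoryData.ext, mul_assoc, ← map_mul, C.proj_left, (huv X).2, one_smul, mul_one]
  rw [← h2, h1, zero_mul, map_zero]

lemma middleKerCondition_of_nilpotentOnKer {T : AbelJacobi H}
    (h : ∀ m : ℕ, X.dim = 2 * m → NilpotentOnKer T X m) : MiddleKerCondition T X := by
  intro m hm z hz
  constructor
  · intro γ hγ hγ0
    exact h m hm γ hγ (fun j _ _ a _ => by rw [hγ0, TheoryData.act_zero]) z hz
  · rintro p hp hpp ⟨n, hn, hkill⟩
    obtain ⟨r, hr⟩ := h m hm p hp (fun j _ hj => hkill j (by omega)) z hz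
    exact act_zero_of_iterate (H := H) hpp hr

theorem isBBAJ_tfae_middle (hK : KunnethConjecture H) (hL : LefschetzInverse H)
    {T : AbelJacobi H} (hT : T.IsFunctorial) (S : Set 𝒱.Obj)
    (hS : ∀ X : 𝒱.Obj, Even X.dim → ∃ Y ∈ S, IsMiddleSummand C X Y) :
    List.TFAE [∃ F : Filtration C, IsBBAJ T F,
      ∀ (X : 𝒱.Obj) (m : ℕ), X.dim = 2 * m → NilpotentOnKer T X m,
      ∀ X : 𝒱.Obj, MiddleKerCondition T (X.prod X),
      ∀ Y ∈ S, MiddleKerCondition T Y] := by
  tfae_have 1 → 2 := by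
    intro h X m _
    have h1 : ∀ (X : 𝒱.Obj) (i : ℕ), NilpotentOnKer T X i :=
      ((isBBAJ_tfae (H := H) hK hT).out 0 1).1 h
    exact h1 X m
  tfae_have 2 → 4 := fun h X _ => middleKerCondition_of_nilpotentOnKer (h X)
  tfae_have 4 → 3 := by
    intro h X
    obtain ⟨Y, hY, hXY⟩ := hS (X.prod X) ⟨X.dim, by rw [dim_sq (H := H)]; ring⟩
    exact middleKerCondition_of_summand hT hXY (h Y hY)
  tfae_have 3 → 1 := by
    intro h1
    have hM : ∀ X : 𝒱.Obj, MiddleCondition H (X.prod X) := fun X =>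
      middleCondition_of_ker hT (h1 X)
    have hA : ∀ X : 𝒱.Obj, ∃ π : ℕ → C.A (X.prod X), IsCK H X π :=
      fun X => exists_CK_of_middle hK (hM X)
    choose π hπ using hA
    have hD : ∀ X : 𝒱.Obj, MurreD H X := fun X => murreD_of_middle (hM X)
    refine ⟨ckFiltration C H π hπ, isBBCorr_ck π hπ hD (fun X => murreB1_of_middle hL (hM X)), ?_⟩
    intro X i x
    change x ∈ ckFil C (π X) i 2 ↔ _
    constructor
    · exact fun hx => ker_of_two hT (hD X) (hπ X) hx
    · intro hx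
      rw [(hπ X).mem_ckFil]
      exact ⟨hx.1.1, fun j hj => act_zero_ker_of_middle hT (h1 X) (hπ X) (by omega) hx⟩
  tfae_finish

end Pool.Agent.TH613.MC
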